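import Mathlib

/-!
MP_a4f561_co (polylog): bookkeeping of the region machine (helper45). No geometry: labels (regions) are natural
numbers with parent `par`, class `cls` (creating phase and side), window `(s, e)` and rank `rk`.
-/

set_option autoImplicit false

namespace Pool.Agent.W_a4f561_P45

/-- `i` is an ancestor of `j` or equal to `j`. -/
def Anc (par : ℕ → ℕ) (i j : ℕ) : Prop := ∃ k : ℕ, par^[k] j = i

theorem anc_refl (par : ℕ → ℕ) (i : ℕ) : Anc par i i := ⟨0, rfl⟩

theorem anc_trans {par : ℕ → ℕ} {i j k : ℕ} (h : Anc par i j) (h' : Anc par j k) : Anc par i k := by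
  obtain ⟨a, ha⟩ := h
  obtain ⟨b, hb⟩ := h'
  exact ⟨a + b, by rw [Function.iterate_add_apply, hb, ha]⟩

theorem anc_par (par : ℕ → ℕ) (i : ℕ) : Anc par (par i) i := ⟨1, rfl⟩

theorem anc_iff {par : ℕ → ℕ} {i j : ℕ} : Anc par i j ↔ i = j ∨ Anc par i (par j) := by
  constructor
  · rintro ⟨k, hk⟩
    cases k with
    | zero => exact Or.inl hk.symm
    | succ k => exact Or.inr ⟨k, by rw [← hk, Function.iterate_succ_apply]⟩
  · rintro (h | ⟨k, hk⟩)
    · exact h ▸ anc_refl _ _
    · exact ⟨k + 1, by rw [Function.iterate_succ_apply]; exact hk⟩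

/-- Ancestors have smaller rank. `par 0 = 0`. -/
theorem anc_rk {par rk : ℕ → ℕ} (h0 : par 0 = 0) (h : ∀ i, 1 ≤ i → rk (par i) < rk i) {i j : ℕ}
    (hij : Anc par i j) : rk i ≤ rk j ∧ (rk i = rk j → i = j) := by
  obtain ⟨k, hk⟩ := hij
  have key : ∀ k j, rk (par^[k] j) ≤ rk j ∧ (rk (par^[k] j) = rk j → par^[k] j = j) := by
    intro k
    induction k with
    | zero => intro j; exact ⟨le_rfl, fun _ => rfl⟩
    | succ k ih =>
      intro j
      rw [Function.iterate_succ_apply]
      rcases Nat.eq_zero_or_pos j with rfl | hj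
      · rw [h0]
        exact ih 0
      · obtain ⟨h1, _⟩ := ih (par j)
        have h2 := h j hj
        exact ⟨by omega, fun h3 => by omega⟩
  rw [← hk]
  exact key k j

/-- The data of the labels and what is needed for the number of phases of a piece. `K` = bound for OPEN. -/
structure Labs {α : Type} (par : ℕ → ℕ) (cls : ℕ → α) (s e rk : ℕ → ℕ) (K : ℕ) : Prop where
  par0 : par 0 = 0
  rk_par : ∀ i, 1 ≤ i → rk (par i) < rk i
  rk_cls : ∀ i j, 1 ≤ i → 1 ≤ j → cls i = cls j → rk i = rk j
  e_cls : ∀ i j, 1 ≤ j → j ≤ i → cls j = cls i → e j ≤ e i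
  opn : ∀ c τ, ∀ P : Finset ℕ, (∀ i ∈ P, 1 ≤ i ∧ cls i = c ∧ s i < τ ∧ τ < e i) → P.card ≤ K

/-- Allowed changes of the cell along a piece: to a strict descendant or into an earlier sibling. -/
def Mv {α : Type} (par : ℕ → ℕ) (cls : ℕ → α) (i i' : ℕ) : Prop :=
  (Anc par i i' ∧ i ≠ i') ∨ ∃ j, 1 ≤ j ∧ j < i ∧ cls j = cls i ∧ Anc par j i'

theorem mv_rk {α : Type} {cls : ℕ → α} {par s e rk : ℕ → ℕ} {K : ℕ} (h : Labs par cls s e rk K) {i i' : ℕ}
    (hm : Mv par cls i i') : rk i ≤ rk i' ∧ (rk i = rk i' → 1 ≤ i' ∧ i' < i ∧ cls i' = cls i) := by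
  rcases hm with ⟨h1, h2⟩ | ⟨j, h1, h2, h3, h4⟩
  · obtain ⟨h5, h6⟩ := anc_rk h.par0 h.rk_par h1
    exact ⟨h5, fun h7 => absurd (h6 h7) h2⟩
  · obtain ⟨h5, h6⟩ := anc_rk h.par0 h.rk_par h4
    have h7 := h.rk_cls j i h1 (by omega) h3
    refine ⟨by omega, fun h8 => ?_⟩
    have h9 := h6 (by omega)
    subst h9
    exact ⟨h1, h2, h3⟩

/-- NUMBER OF PHASES OF A PIECE. `c l` = cell of the `l`-th phase, `τ l` = time of one of its vertices. -/
theorem phases_le {α : Type} {cls : ℕ → α} {par s e rk : ℕ → ℕ} {K : ℕ} (h : Labs par cls s e rk K) (hK : 1 ≤ K) {R n : ℕ}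
    (c τ : ℕ → ℕ) (hR : ∀ l, l < n → rk (c l) ≤ R) (hτ : ∀ l, l + 1 < n → τ l ≤ τ (l + 1))
    (hw : ∀ l, l < n → 1 ≤ c l → s (c l) < τ l ∧ τ l < e (c l))
    (hm : ∀ l, l + 1 < n → Mv par cls (c l) (c (l + 1))) : n ≤ (R + 1) * K := by
  classical
  have hmono : ∀ a b, a ≤ b → b < n → rk (c a) ≤ rk (c b) ∧ τ a ≤ τ b := by
    intro a b hab
    induction b, hab using Nat.le_induction with
    | base => exact fun _ => ⟨le_rfl, le_rfl⟩
    | succ b hab ih =>
      intro hb
      have h1 := ih (by omega)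
      have h2 := (mv_rk h (hm b hb)).1
      have h3 := hτ b hb
      exact ⟨h1.1.trans h2, h1.2.trans h3⟩
  have hchain : ∀ a b, a ≤ b → b < n → rk (c a) = rk (c b) →
      (a = b) ∨ (1 ≤ c b ∧ c b < c a ∧ cls (c b) = cls (c a)) := by
    intro a b hab
    induction b, hab using Nat.le_induction with
    | base => exact fun _ _ => Or.inl rfl
    | succ b hab ih =>
      intro hb hr
      have h1 := hmono a b hab (by omega)
      have h2 := (mv_rk h (hm b hb)).1
      have h3 := (mv_rk h (hm b hb)).2 (by omega)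
      right
      rcases ih (by omega) (by omega) with h4 | h4
      · subst h4
        exact h3
      · exact ⟨h3.1, by omega, h3.2.2.trans h4.2.2⟩
  have hfib : ∀ r ∈ (Finset.range n).image (fun l => rk (c l)),
      ((Finset.range n).filter (fun l => rk (c l) = r)).card ≤ K := by
    intro r hr
    obtain ⟨l0, hl0, hl0'⟩ := Finset.mem_image.1 hr
    have hne : ((Finset.range n).filter (fun l => rk (c l) = r)).Nonempty :=
      ⟨l0, Finset.mem_filter.2 ⟨hl0, hl0'⟩⟩
    obtain ⟨L, hLm, hLx⟩ := Finset.exists_max_image _ (fun l => l) hne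
    have hL := Finset.mem_filter.1 hLm
    have hLn := Finset.mem_range.1 hL.1
    by_cases h1 : 1 ≤ c L
    · have hinj : Set.InjOn c ((Finset.range n).filter (fun l => rk (c l) = r) : Finset ℕ) := by
        intro a ha b hb hab
        have ha' := Finset.mem_filter.1 (Finset.mem_coe.1 ha)
        have hb' := Finset.mem_filter.1 (Finset.mem_coe.1 hb)
        have ha'' := Finset.mem_range.1 ha'.1
        have hb'' := Finset.mem_range.1 hb'.1
        rcases Nat.le_total a b with h2 | h2
        · rcases hchain a b h2 hb'' (by rw [ha'.2, hb'.2]) with h3 | h3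
          · exact h3
          · omega
        · rcases hchain b a h2 ha'' (by rw [ha'.2, hb'.2]) with h3 | h3
          · exact h3.symm
          · omega
      rw [← Finset.card_image_of_injOn hinj]
      refine h.opn (cls (c L)) (τ L) _ ?_
      intro i hi
      obtain ⟨a, ha, rfl⟩ := Finset.mem_image.1 hi
      have ha' := Finset.mem_filter.1 ha
      have ha'' := Finset.mem_range.1 ha'.1
      have haL : a ≤ L := hLx a ha
      have hwL := hw L hLn h1
      have h3 := (hmono a L haL hLn).2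
      rcases hchain a L haL hLn (by rw [ha'.2, hL.2]) with h4 | ⟨h4, h5, h6⟩
      · subst h4
        exact ⟨h1, rfl, hwL.1, hwL.2⟩
      · have h7 := hw a ha'' (by omega)
        have h8 := h.e_cls (c a) (c L) h4 h5.le h6
        exact ⟨by omega, h6.symm, by omega, by omega⟩
    · have h2 : ((Finset.range n).filter (fun l => rk (c l) = r)) ⊆ {L} := by
        intro a ha
        have ha' := Finset.mem_filter.1 ha
        have haL : a ≤ L := hLx a ha
        rcases hchain a L haL hLn (by rw [ha'.2, hL.2]) with h4 | ⟨h4, _⟩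
        · exact Finset.mem_singleton.2 h4
        · exact absurd h4 h1
      exact (Finset.card_le_card h2).trans (by rw [Finset.card_singleton]; exact hK)
  have h1 := Finset.card_le_mul_card_image (s := Finset.range n) (f := fun l => rk (c l)) K hfib
  rw [Finset.card_range] at h1
  have h2 : ((Finset.range n).image (fun l => rk (c l))).card ≤ R + 1 := by
    have h3 : (Finset.range n).image (fun l => rk (c l)) ⊆ Finset.range (R + 1) := by
      intro r hr
      obtain ⟨l, hl, rfl⟩ := Finset.mem_image.1 hr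
      exact Finset.mem_range.2 (Nat.lt_succ_of_le (hR l (Finset.mem_range.1 hl)))
    exact (Finset.card_le_card h3).trans (by rw [Finset.card_range])
  calc n ≤ K * ((Finset.range n).image (fun l => rk (c l))).card := h1
    _ ≤ K * (R + 1) := Nat.mul_le_mul_left _ h2
    _ = (R + 1) * K := Nat.mul_comm _ _

/-- NUMBER OF PHASES MET BY A ROUTE. `Inn v`: inner vertices; `ph v`: phase of `v`; `pc a`: piece of the phase `a`;
`rk a`: rank of the piece `a`. Along a step the piece is the same or the rank goes down. -/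
theorem route_le {V : Type} {π : V → V} {Inn : V → Prop} {ph : V → ℕ} {pc prk : ℕ → ℕ} {R M : ℕ}
    (hstop : ∀ v, ¬ Inn v → ¬ Inn (π v))
    (hst : ∀ v, Inn v → Inn (π v) → pc (ph (π v)) = pc (ph v) ∨ prk (pc (ph (π v))) < prk (pc (ph v)))
    (hR : ∀ v, Inn v → prk (pc (ph v)) < R)
    (hM : ∀ a, ∀ P : Finset ℕ, (∀ i ∈ P, pc i = a ∧ ∃ v, Inn v ∧ ph v = i) → P.card ≤ M)
    (p : V) (P : Finset ℕ) (hP : ∀ i ∈ P, ∃ k : ℕ, Inn (π^[k] p) ∧ ph (π^[k] p) = i) : P.card ≤ R * M := by
  classical
  have hinn : ∀ k j, Inn (π^[k + j] p) → Inn (π^[k] p) := by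
    intro k j
    induction j with
    | zero => exact fun h => h
    | succ j ih =>
      intro h
      apply ih
      by_contra h1
      have h2 : π^[k + (j + 1)] p = π (π^[k + j] p) := by
        rw [← Function.iterate_succ_apply' π (k + j) p]
        rfl
      rw [h2] at h
      exact hstop _ h1 h
  have hmono : ∀ k j, Inn (π^[k + j] p) → prk (pc (ph (π^[k + j] p))) < prk (pc (ph (π^[k] p))) ∨
      pc (ph (π^[k + j] p)) = pc (ph (π^[k] p)) := by
    intro k j
    induction j with
    | zero => exact fun _ => Or.inr rfl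
    | succ j ih =>
      intro h
      have h1 : Inn (π^[k + j] p) := hinn (k + j) 1 h
      have h2 : π^[k + (j + 1)] p = π (π^[k + j] p) := by
        rw [← Function.iterate_succ_apply' π (k + j) p]
        rfl
      rw [h2] at h ⊢
      rcases hst _ h1 h with h3 | h3
      · rw [h3]
        exact ih h1
      · rcases ih h1 with h4 | h4
        · exact Or.inl (h3.trans h4)
        · rw [h4] at h3
          exact Or.inl h3
  have hfib : ∀ a ∈ P.image pc, (P.filter (fun i => pc i = a)).card ≤ M := by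
    intro a _
    refine hM a _ ?_
    intro i hi
    obtain ⟨h1, h2⟩ := Finset.mem_filter.1 hi
    obtain ⟨k, h3, h4⟩ := hP i h1
    exact ⟨h2, _, h3, h4⟩
  have h1 := Finset.card_le_mul_card_image (s := P) (f := pc) M hfib
  have hinj : Set.InjOn prk (P.image pc : Finset ℕ) := by
    intro a ha b hb hab
    obtain ⟨i, hi, rfl⟩ := Finset.mem_image.1 (Finset.mem_coe.1 ha)
    obtain ⟨j, hj, rfl⟩ := Finset.mem_image.1 (Finset.mem_coe.1 hb)
    obtain ⟨k, hk, rfl⟩ := hP i hi
    obtain ⟨l, hl, rfl⟩ := hP j hj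
    rcases Nat.le_total k l with h2 | h2
    · obtain ⟨d, rfl⟩ := Nat.exists_eq_add_of_le h2
      rcases hmono k d hl with h3 | h3
      · omega
      · exact h3.symm
    · obtain ⟨d, rfl⟩ := Nat.exists_eq_add_of_le h2
      rcases hmono l d hk with h3 | h3
      · omega
      · exact h3
  have h2 : (P.image pc).card ≤ R := by
    rw [← Finset.card_image_of_injOn hinj]
    have h3 : (P.image pc).image prk ⊆ Finset.range R := by
      intro r hr
      obtain ⟨a, ha, rfl⟩ := Finset.mem_image.1 hr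
      obtain ⟨i, hi, rfl⟩ := Finset.mem_image.1 ha
      obtain ⟨k, hk, rfl⟩ := hP i hi
      exact Finset.mem_range.2 (hR _ hk)
    exact (Finset.card_le_card h3).trans (by rw [Finset.card_range])
  calc P.card ≤ M * (P.image pc).card := h1
    _ ≤ M * R := Nat.mul_le_mul_left _ h2
    _ = R * M := Nat.mul_comm _ _

/-- DEPTH: `dep` grows by one along `par`, so it is at most the rank. -/
theorem dep_le_rk {par rk dep : ℕ → ℕ} (hlt : ∀ i, 1 ≤ i → par i < i) (h : ∀ i, 1 ≤ i → rk (par i) < rk i)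
    (hd0 : dep 0 = 0) (hd : ∀ i, 1 ≤ i → dep i = dep (par i) + 1) (i : ℕ) : dep i ≤ rk i := by
  induction i using Nat.strong_induction_on with
  | _ i ih =>
    rcases Nat.eq_zero_or_pos i with rfl | hi
    · rw [hd0]
      exact Nat.zero_le _
    · have h1 := ih (par i) (hlt i hi)
      have h2 := h i hi
      rw [hd i hi]
      omega

theorem anc_le {par : ℕ → ℕ} (h0 : par 0 = 0) (hlt : ∀ i, 1 ≤ i → par i < i) {i j : ℕ} (h : Anc par i j) :
    i ≤ j := by
  obtain ⟨k, hk⟩ := h
  have key : ∀ k j, par^[k] j ≤ j := by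
    intro k
    induction k with
    | zero => intro j; exact le_rfl
    | succ k ih =>
      intro j
      rw [Function.iterate_succ_apply]
      rcases Nat.eq_zero_or_pos j with rfl | hj
      · rw [h0]
        exact ih 0
      · exact (ih (par j)).trans (hlt j hj).le
  rw [← hk]
  exact key k j

/-- Two ancestors of one label are comparable. -/
theorem anc_comp {par : ℕ → ℕ} {i j k : ℕ} (h : Anc par i k) (h' : Anc par j k) :
    Anc par i j ∨ Anc par j i := by
  obtain ⟨a, ha⟩ := h
  obtain ⟨b, hb⟩ := h'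
  rcases Nat.le_total a b with h1 | h1
  · obtain ⟨d, rfl⟩ := Nat.exists_eq_add_of_le h1
    right
    refine ⟨d, ?_⟩
    rw [← ha, ← hb, ← Function.iterate_add_apply, Nat.add_comm]
  · obtain ⟨d, rfl⟩ := Nat.exists_eq_add_of_le h1
    left
    refine ⟨d, ?_⟩
    rw [← ha, ← hb, ← Function.iterate_add_apply, Nat.add_comm]

theorem anc_antisymm {par : ℕ → ℕ} (h0 : par 0 = 0) (hlt : ∀ i, 1 ≤ i → par i < i) {i j : ℕ}
    (h : Anc par i j) (h' : Anc par j i) : i = j :=
  le_antisymm (anc_le h0 hlt h) (anc_le h0 hlt h')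

theorem anc_zero {par : ℕ → ℕ} (_ : par 0 = 0) (hlt : ∀ i, 1 ≤ i → par i < i) (i : ℕ) : Anc par 0 i := by
  induction i using Nat.strong_induction_on with
  | _ i ih =>
    rcases Nat.eq_zero_or_pos i with rfl | hi
    · exact anc_refl _ _
    · exact anc_trans (ih (par i) (hlt i hi)) (anc_par par i)

/-- CUSTODY at the end. `X i` = allowed exits of the label `i` at the moment: `bd i` or an earlier sibling. The
route of `y` hits `bd j` for an earlier sibling (or `i` itself) `j`. `T v`: terminal vertices, in no label `>= 1`. -/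
theorem custody {V α : Type} {cls : ℕ → α} {π : V → V} {t : V → ℕ} {cell : V → ℕ} {par : ℕ → ℕ} {bd : ℕ → Set V}
    {Inn : V → Prop} (hterm : ∀ v, ¬ Inn v → ∀ i, 1 ≤ i → ¬ Anc par i (cell v))
    (htn : ∀ v, Inn v → t v < t (π v)) {B : ℕ} (hB : ∀ v, Inn v → t v ≤ B)
    (hI2 : ∀ v, Inn v → ∀ i, 1 ≤ i → Anc par i (cell v) →
      Anc par i (cell (π v)) ∨ π v ∈ bd i ∨ ∃ j, 1 ≤ j ∧ j < i ∧ cls j = cls i ∧ Anc par j (cell (π v)))
    {i : ℕ} (hi : 1 ≤ i) {y : V} (hy : Anc par i (cell y)) :
    ∃ k : ℕ, 1 ≤ k ∧ ∃ j, 1 ≤ j ∧ j ≤ i ∧ cls j = cls i ∧ π^[k] y ∈ bd j := by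
  have key : ∀ n : ℕ, ∀ y : V, ∀ i, 1 ≤ i → Anc par i (cell y) → B + 1 - t y ≤ n →
      ∃ k : ℕ, 1 ≤ k ∧ ∃ j, 1 ≤ j ∧ j ≤ i ∧ cls j = cls i ∧ π^[k] y ∈ bd j := by
    intro n
    induction n with
    | zero =>
      intro y i hi hy hn
      have hyi : Inn y := by
        by_contra h
        exact hterm y h i hi hy
      have := hB y hyi
      omega
    | succ n ih =>
      intro y i hi hy hn
      have hyi : Inn y := by
        by_contra h
        exact hterm y h i hi hy
      have h1 := hB y hyi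
      have h2 := htn y hyi
      rcases hI2 y hyi i hi hy with h3 | h3 | ⟨j, h3, h4, h5, h6⟩
      · obtain ⟨k, hk, j, h7, h8, h9, h10⟩ := ih (π y) i hi h3 (by omega)
        exact ⟨k + 1, by omega, j, h7, h8, h9, by rw [Function.iterate_succ_apply]; exact h10⟩
      · exact ⟨1, le_rfl, i, hi, le_rfl, rfl, h3⟩
      · obtain ⟨k, hk, j', h7, h8, h9, h10⟩ := ih (π y) j h3 h6 (by omega)
        exact ⟨k + 1, by omega, j', h7, by omega, h9.trans h5, by
          rw [Function.iterate_succ_apply]; exact h10⟩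
  exact key _ y i hi hy le_rfl

end Pool.Agent.W_a4f561_P45
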