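import Pool.Agent.W_a4f561_P45.RkCell
import Pool.Agent.W_a4f561_P66.Cust66

/-!
MP_a4f561_co, polylog pages (helper45): step (3 WALK). Walks after the draw of a phase.
-/

set_option autoImplicit false

namespace Pool.Agent.W_a4f561_P45

open Pool.Agent.W_a4f561_h26 Pool.Agent.W_a4f561_P73 Pool.Agent.W_a4f561_P8 Pool.Agent.W_a4f561_h1
open Pool.Agent.W_a4f561_P25 (Tc Ar Area)

variable {V : Type} {G : Bars V} {rnk : V → ℕ}

section area

variable {π : V → V}

/-- The choice function `lo`. -/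
noncomputable def loC (G : Bars V) : V → V := by
  classical
  exact fun v => if G.inn v then G.lo v else v

theorem loC_ch (G : Bars V) : Ch G (loC G) := by
  refine ⟨?_, ?_, fun v hv => Or.inl ?_⟩
  · unfold loC
    rw [if_neg fun h => h.1 rfl]
  · unfold loC
    rw [if_neg fun h => h.2 rfl]
  · unfold loC
    rw [if_pos hv]

/-- From a vertex of an area a walk goes to the phase. -/
theorem ar_walk (hπ : Ch G π) {z : V} {tl : ℕ} (hN : tl ≤ G.N) {y : V} {a c : ℕ} {U : Set V}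
    (hA : ∀ u, Ar G π z tl y a c u → u ∉ U) (hO : ∀ u, Orb π z u → G.t u ≤ G.t (host G π z c) → u ∉ U) :
    ∀ n v, G.N ≤ G.t v + n → Ar G π z tl y a c v →
      ∃ w, Orb π z w ∧ G.t w ≤ G.t (host G π z c) ∧ Walk G U v w := by
  intro n
  induction n with
  | zero =>
    intro v hn hv
    obtain ⟨_, _, h2, _⟩ := hv.p0 hπ hN
    have h3 := hv.2.2.1.2.1
    omega
  | succ n ih =>
    intro v hn hv
    obtain ⟨_, hb, h2, h4⟩ := hv.p0 hπ hN
    have h3 := hv.2.2.1.2.1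
    have hi : G.inn v := G.inn_of_t h2 (h3.trans hN)
    have hst : loC G v = G.lo v := by
      unfold loC
      rw [if_pos hi]
    have hne : loC G v ≠ y := by
      rw [hst]
      intro e
      have h5 := (h4 (G.t v) ⟨G.bt v, le_rfl⟩).2
      have h6 := r_lo G hi
      rw [e] at h6
      omega
    have htl := t_lo G hi
    rcases hv.fwd hπ hN (loC_ch G) hne with h5 | ⟨h5, h6⟩
    · rw [hst] at h5
      obtain ⟨w, w1, w2, w3⟩ := ih (G.lo v) (by omega) h5
      exact ⟨w, w1, w2, Relation.ReflTransGen.head ⟨hi, Or.inl rfl, hA _ h5⟩ w3⟩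
    · rw [hst] at h5 h6
      exact ⟨G.lo v, h5, h6, Walk.tail (Walk.refl v) ⟨hi, Or.inl rfl, hO _ h5 h6⟩⟩

theorem walk_mir' {U : Set V} {a b : V} (h : Walk G.mir U a b) : Walk G U a b := by
  have h1 := walk_mir h
  rwa [G.mir_mir] at h1

/-- From a vertex of an area (above or below) a walk goes to the phase. -/
theorem area_walk (hπ : Ch G π) {z vl : V} (ho : Orb π z vl) (hvl : G.inn vl) {U : Set V}
    (hA : ∀ u, Area G π z (G.t vl) u → u ∉ U) (hO : ∀ u, Orb π z u → G.t u ≤ G.t vl → u ∉ U) {v : V}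
    (h : Area G π z (G.t vl) v) : ∃ w, Orb π z w ∧ G.t w ≤ G.t vl ∧ Walk G U v w := by
  have hN : G.t vl ≤ G.N := by
    have := Pool.Agent.W_a4f561_B31.t_lt_of_inn G hvl
    omega
  have key : ∀ c, c ≤ G.t vl → G.t (host G π z c) ≤ G.t vl := by
    intro c hc
    have h1 : host G π (host G π z c) (G.t vl) = vl := by
      rw [Pool.Agent.W_a4f561_B31.host_host hπ hc (by omega) z]
      exact host_t hπ ho hvl
    have h2 := orb_t hπ (host_orb G π (host G π z c) (G.t vl))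
    rwa [h1] at h2
  rcases h with ⟨y, a, c, h⟩ | ⟨y, a, c, h⟩
  · have hc := key c h.2.2.1.2.1
    obtain ⟨w, w1, w2, w3⟩ := ar_walk hπ hN (U := U) (fun u hu => hA u (Or.inl ⟨y, a, c, hu⟩))
      (fun u hu ht => hO u hu (ht.trans hc)) G.N v (by omega) h
    exact ⟨w, w1, w2.trans hc, w3⟩
  · have hc := key c h.2.2.1.2.1
    obtain ⟨w, w1, w2, w3⟩ := ar_walk (G := G.mir) (ch_mir.2 hπ) hN (U := U)
      (fun u hu => hA u (Or.inr ⟨y, a, c, hu⟩)) (fun u hu ht => hO u hu (ht.trans hc)) G.N v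
      (Nat.le_add_left _ _) h
    exact ⟨w, w1, w2.trans hc, walk_mir' w3⟩

end area

variable [Fintype V] [DecidableEq V] {N k0 : ℕ} {X : MS V} {S0 : Set V} {r z e vl : V} {ω : V × Bool → Bool}
  {σ1 : St V} {δ : ℝ}

/-- The new state agrees with the old one on the drawn set. -/
theorem draw_orb_S0 (hP : PS G rnk X S0 r z)
    (hD : Dr1 G X.σ (X.D (X.cell z)) ω z e vl σ1) : ∀ w ∈ S0, σ1.pi w ∈ S0 := by
  intro w hw
  rw [hD.piO w (Or.inl (hP.sub hw))]
  exact hP.cl0 w hw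

/-- `Low` of the new state is in `S0`. -/
theorem draw_low_sub (hP : PS G rnk X S0 r z) (hD : Dr1 G X.σ (X.D (X.cell z)) ω z e vl σ1) {k : ℕ}
    (hk : k ≤ rnk r) : Low G rnk σ1.pi k ⊆ S0 :=
  low_sub (draw_orb_S0 hP hD) hP.bot0 hP.top0 fun u hu => hP.low0 u (hu.trans_le hk)

/-- `Low` does not change. -/
theorem draw_low_eq (hP : PS G rnk X S0 r z) (hD : Dr1 G X.σ (X.D (X.cell z)) ω z e vl σ1) {k : ℕ}
    (hk : k ≤ rnk r) : Low G rnk σ1.pi k = Low G rnk X.σ.pi k := by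
  have key : ∀ n u, u ∈ S0 → σ1.pi^[n] u = X.σ.pi^[n] u ∧ σ1.pi^[n] u ∈ S0 := by
    intro n
    induction n with
    | zero => exact fun u hu => ⟨rfl, hu⟩
    | succ n ih =>
      intro u hu
      obtain ⟨h1, h2⟩ := ih u hu
      rw [Function.iterate_succ_apply', Function.iterate_succ_apply']
      refine ⟨?_, draw_orb_S0 hP hD _ h2⟩
      rw [← h1]
      exact hD.piO _ (Or.inl (hP.sub h2))
  ext w
  constructor
  · rintro (h | h | ⟨u, hu, n, hn⟩)
    · exact Or.inl h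
    · exact Or.inr (Or.inl h)
    · exact Or.inr (Or.inr ⟨u, hu, n, by rw [← (key n u (hP.low0 u (hu.trans_le hk))).1]; exact hn⟩)
  · rintro (h | h | ⟨u, hu, n, hn⟩)
    · exact Or.inl h
    · exact Or.inr (Or.inl h)
    · exact Or.inr (Or.inr ⟨u, hu, n, by rw [(key n u (hP.low0 u (hu.trans_le hk))).1]; exact hn⟩)

/-- The phase of an old drawn vertex does not change, its root neither. -/
theorem draw_rt_old (hW : WI G rnk N k0 X z) {A : Set V} {w : V}
    (hw : w ∈ X.σ.S) (hwi : G.inn w) :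
    (X.draw σ1 (Bp G X.σ (X.D (X.cell z)) ω z) A z r).rt
      ((X.draw σ1 (Bp G X.σ (X.D (X.cell z)) ω z) A z r).phs w) = X.rt (X.phs w) := by
  have h1 : w ∉ Bp G X.σ (X.D (X.cell z)) ω z := fun h => (h.2 w h.1 le_rfl).1 hw
  have h2 := (hW.phs_rng w hw hwi).2
  simp only [MS.draw]
  rw [if_neg h1, if_neg (by omega)]

/-- The root of the phase of a label does not change. -/
theorem draw_rt_ph (hW : WI G rnk N k0 X z) {A B : Set V} {i : ℕ} (hi : 1 ≤ i) (hin : i < X.nl) :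
    (X.draw σ1 B A z r).rt (X.ph i) = X.rt (X.ph i) := by
  have h2 := (hW.ph_rng i hi hin).2
  simp only [MS.draw]
  rw [if_neg (by omega)]

/-- **(3 WALK)** The field `wlk` after the draw. -/
theorem draw_wlk (hW : WI G rnk N k0 X z) (hP : PS G rnk X S0 r z)
    (hE : Exi (X.D (X.cell z)) G (law G X.σ ω) z e) (hD : Dr1 G X.σ (X.D (X.cell z)) ω z e vl σ1) :
    ∀ v, v ∉ σ1.S → ∀ i, 1 ≤ i →
      v ∈ (X.draw σ1 (Bp G X.σ (X.D (X.cell z)) ω z) {u | Area G σ1.pi z (G.t vl) u} z r).C i →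
      ∃ w ∈ σ1.S, G.inn w ∧
        (X.draw σ1 (Bp G X.σ (X.D (X.cell z)) ω z) {u | Area G σ1.pi z (G.t vl) u} z r).rt
          ((X.draw σ1 (Bp G X.σ (X.D (X.cell z)) ω z) {u | Area G σ1.pi z (G.t vl) u} z r).phs w) =
        (X.draw σ1 (Bp G X.σ (X.D (X.cell z)) ω z) {u | Area G σ1.pi z (G.t vl) u} z r).rt (X.ph i) ∧
        Walk G (Low G rnk σ1.pi (rnk
          ((X.draw σ1 (Bp G X.σ (X.D (X.cell z)) ω z) {u | Area G σ1.pi z (G.t vl) u} z r).rt (X.ph i)))) v w := by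
  classical
  intro v hv i hi hvC
  set A : Set V := {u | Area G σ1.pi z (G.t vl) u} with hA
  set B : Set V := Bp G X.σ (X.D (X.cell z)) ω z with hB
  have hSS : ∀ w ∈ X.σ.S, w ∈ σ1.S := fun w hw => (hD.S w).2 (Or.inl hw)
  have hvS : v ∉ X.σ.S := fun h => hv (hSS v h)
  -- the old statement for a vertex `x` which is in `C i`
  have key : ∀ x, x ∉ X.σ.S → Anc X.par i (X.cell x) → ∃ w ∈ σ1.S, G.inn w ∧
      (X.draw σ1 B A z r).rt ((X.draw σ1 B A z r).phs w) = (X.draw σ1 B A z r).rt (X.ph i) ∧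
      Walk G (Low G rnk σ1.pi (rnk ((X.draw σ1 B A z r).rt (X.ph i)))) x w := by
    intro x hx ha
    have hin : i < X.nl := (anc_le hW.lab.par0 hW.par_lt ha).trans_lt (hW.cell_lt x)
    obtain ⟨w, h1, h2, h3, h4⟩ := hW.wlk x hx i hi ha
    refine ⟨w, hSS w h1, h2, ?_, ?_⟩
    · rw [hB, draw_rt_old hW h1 h2, draw_rt_ph hW hi hin, h3]
    · obtain ⟨p1, p2⟩ := hW.ph_rng i hi hin
      rw [draw_rt_ph hW hi hin, draw_low_eq hP hD (hP.rts _ p1 p2)]
      exact h4
  by_cases hvA : v ∈ A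
  · have ha : Anc X.par i (X.cell z) := by
      have h1 : Anc X.par i ((X.draw σ1 B A z r).cell v) := hvC
      have h2 : (X.draw σ1 B A z r).cell v = X.cell z := by
        simp only [MS.draw]
        rw [if_pos hvA]
      rwa [h2] at h1
    have hin : i < X.nl := (anc_le hW.lab.par0 hW.par_lt ha).trans_lt (hW.cell_lt z)
    obtain ⟨p1, p2⟩ := hW.ph_rng i hi hin
    have hlaw := Pool.Agent.W_a4f561_P66.law_ch (G := G) hW.inv.bot_mem hW.inv.top_mem hW.inv.ch ω
    have hDi : ∀ v ∈ X.D (X.cell z), G.inn v := fun v hv =>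
      ⟨fun h => hv.1 (h ▸ hW.inv.bot_mem), fun h => hv.1 (h ▸ hW.inv.top_mem)⟩
    have hvlD : vl ∈ X.D (X.cell z) := hD.vlB.2 vl hD.vlB.1 le_rfl
    have hvi := hDi vl hvlD
    have hovl : Orb σ1.pi z vl :=
      Pool.Agent.W_a4f561_P66.pd_orb (G := G) (fun v hv => hD.piB v hv) hD.vlB hlaw
    have hpd : ∀ u, Orb σ1.pi z u → G.t u ≤ G.t vl → u ∈ B := fun u hu ht =>
      Pool.Agent.W_a4f561_P66.orb_pd hlaw hD.inv.ch hE hDi hD.vlB hD.vle (fun v hv => hD.piB v hv) hu ht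
    obtain ⟨w, w1, w2, w3⟩ := area_walk (G := G) hD.inv.ch hovl hvi (U := S0)
      (fun u hu h => hD.noS u (hSS u (hP.sub h)) hu)
      (fun u hu ht h => ((hpd u hu ht).2 u (hpd u hu ht).1 le_rfl).1 (hP.sub h)) hvA
    have hwB := hpd w w1 w2
    have hwD : w ∈ X.D (X.cell z) := hwB.2 w hwB.1 le_rfl
    obtain ⟨w', h1, h2, h3, h4⟩ := key w hwD.1 (by rw [hwD.2]; exact ha)
    refine ⟨w', h1, h2, h3, Walk.trans (w3.anti ?_) h4⟩
    rw [draw_rt_ph hW hi hin]
    exact draw_low_sub hP hD (hP.rts _ p1 p2)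
  · refine key v hvS ?_
    have h1 : Anc X.par i ((X.draw σ1 B A z r).cell v) := hvC
    have h2 : (X.draw σ1 B A z r).cell v = X.cell v := by
      simp only [MS.draw]
      rw [if_neg hvA]
    rwa [h2] at h1

end Pool.Agent.W_a4f561_P45
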