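import Pool.Agent.W_a4f561_P45.Mach45
import Pool.Agent.W_a4f561_P34.Loop34
import Pool.Agent.W_a4f561_P97.NewL97

/-!
MP_a4f561_co, polylog pages (helper1's proof): (RK). A piece of rank `k` never comes into a label of rank `k`.
`Rch`: every vertex (not drawn) of a label of the present rank `k` reaches, avoiding `U0`, a drawn vertex of the
piece (root `lroot i`) which created the label. (helper45)
-/

set_option autoImplicit false

namespace Pool.Agent.W_a4f561_P45

open Pool.Agent.W_a4f561_h26 Pool.Agent.W_a4f561_P8 Pool.Agent.W_a4f561_P34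

variable {V : Type} {G : Bars V}

/-- Changing the parent of a fresh label `m` changes nothing for the labels below `m`. -/
theorem anc_upd {par par' : ℕ → ℕ} {m : ℕ} (h0 : par 0 = 0) (hlt : ∀ i, 1 ≤ i → par i < i)
    (he : ∀ i, i < m → par' i = par i) {i j : ℕ} (hj : j < m) : Anc par' i j ↔ Anc par i j := by
  have key : ∀ k j, j < m → par'^[k] j = par^[k] j := by
    intro k
    induction k with
    | zero => intro j _; rfl
    | succ k ih =>
      intro j hj
      rw [Function.iterate_succ_apply, Function.iterate_succ_apply, he j hj]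
      apply ih
      rcases Nat.eq_zero_or_pos j with rfl | h1
      · rw [h0]; exact hj
      · exact (hlt j h1).trans hj
  constructor
  · rintro ⟨k, hk⟩
    exact ⟨k, by rw [← key k j hj]; exact hk⟩
  · rintro ⟨k, hk⟩
    exact ⟨k, by rw [key k j hj]; exact hk⟩

/-- The ancestors of the fresh label `m` with parent `c`. -/
theorem anc_new {par par' : ℕ → ℕ} {m c : ℕ} (h0 : par 0 = 0) (hlt : ∀ i, 1 ≤ i → par i < i)
    (he : ∀ i, i < m → par' i = par i) (hc : c < m) (hm : par' m = c) {i : ℕ} :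
    Anc par' i m ↔ i = m ∨ Anc par i c := by
  rw [anc_iff, hm, anc_upd h0 hlt he hc]

/-- The invariant for (RK). -/
def Rch (G : Bars V) (U0 S : Set V) (own : V → V) (k : ℕ) (par : ℕ → ℕ) (cell : V → ℕ) (lrk : ℕ → ℕ)
    (lroot : ℕ → V) : Prop :=
  ∀ i, 1 ≤ i → lrk i = k → ∀ z, z ∉ S → Anc par i (cell z) → ∃ u ∈ S, u ∉ U0 ∧ own u = lroot i ∧ Walk G U0 z u

variable {U0 S : Set V} {own : V → V} {k : ℕ} {par : ℕ → ℕ} {cell : V → ℕ} {lrk : ℕ → ℕ} {lroot : ℕ → V}

/-- The next rank: nothing to prove. -/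
theorem rch_next {U0' S' : Set V} {own' : V → V} (h : ∀ i, lrk i ≤ k) :
    Rch G U0' S' own' (k + 1) par cell lrk lroot := by
  intro i _ hi
  have := h i
  omega

/-- **(RK)** A start `v` of rank `k` (not drawn) does not reach, avoiding `U0`, a vertex of a label of rank `k`. -/
theorem rk_enter {rk : V → ℕ} {pi : V → V} (hr : Rks G rk) (hL : Lp G rk S pi U0 k own)
    (h : Rch G U0 S own k par cell lrk lroot) {v : V} (hv : v ∉ S) (hk : rk v = k) {z : V} (hz : z ∉ S)
    (hw : Walk G U0 v z) {i : ℕ} (hi : 1 ≤ i) (ha : Anc par i (cell z)) : lrk i ≠ k := by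
  intro he
  obtain ⟨u, hu, hu0, _, h1⟩ := h i hi he z hz ha
  exact hL.sep hr hv hk hu hu0 (Walk.refl _) (hw.trans h1)

theorem rk_enter_lt {rk : V → ℕ} {pi : V → V} (hr : Rks G rk) (hL : Lp G rk S pi U0 k own)
    (h : Rch G U0 S own k par cell lrk lroot) (hle : ∀ i, lrk i ≤ k) {v : V} (hv : v ∉ S) (hk : rk v = k) {z : V}
    (hz : z ∉ S) (hw : Walk G U0 v z) {i : ℕ} (hi : 1 ≤ i) (ha : Anc par i (cell z)) : lrk i < k :=
  lt_of_le_of_ne (hle i) (rk_enter hr hL h hv hk hz hw hi ha)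

/-- (RK) in the middle of a piece: `S` contains the drawn part of the piece of `v`, the label was created by
another root (`lroot i ≠ v`). -/
theorem rk_enter_mid {rk : V → ℕ} {pi : V → V} (hr : Rks G rk) (hch : Ch G pi) (cl0 : ∀ w ∈ U0, pi w ∈ U0)
    (hb : G.bot ∈ U0) (ht : G.top ∈ U0) (low : ∀ u, rk u < k → u ∈ U0)
    (hown : ∀ u ∈ S, u ∉ U0 → own u ∉ U0 ∧ rk (own u) = k ∧ Walk G U0 (own u) u)
    (h : Rch G U0 S own k par cell lrk lroot) {v : V} (hv : v ∉ U0) (hk : rk v = k) {z : V} (hz : z ∉ S)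
    (hw : Walk G U0 v z) {i : ℕ} (hi : 1 ≤ i) (ha : Anc par i (cell z)) (hne : lroot i ≠ v) : lrk i ≠ k := by
  intro he
  obtain ⟨u, hu, hu0, ho, h1⟩ := h i hi he z hz ha
  obtain ⟨a1, a2, a3⟩ := hown u hu hu0
  exact sep_walk hr hch cl0 hb ht (v := v) (v' := own u) (fun e => hne (by rw [← ho]; exact e.symm)) (by rw [hk, a2])
    (fun w hw => low w (by omega)) hv a1 (hw.trans h1) a3

/-- More vertices are drawn. -/
theorem rch_draw (h : Rch G U0 S own k par cell lrk lroot) {S' : Set V} {own' : V → V} (hS : S ⊆ S')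
    (ho : ∀ u ∈ S, own' u = own u) : Rch G U0 S' own' k par cell lrk lroot := by
  intro i hi he z hz ha
  obtain ⟨u, hu, hu0, ho', h1⟩ := h i hi he z (fun h' => hz (hS h')) ha
  exact ⟨u, hS hu, hu0, by rw [ho u hu]; exact ho', h1⟩

/-- Relabelling: some vertices get the label `c` of the cell of the phase, which is in no label of rank `k`. -/
theorem rch_relabel (h : Rch G U0 S own k par cell lrk lroot) {cell' : V → ℕ} {c : ℕ}
    (hc : ∀ i, 1 ≤ i → Anc par i c → lrk i ≠ k) (he : ∀ z, z ∉ S → cell' z = cell z ∨ cell' z = c) :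
    Rch G U0 S own k par cell' lrk lroot := by
  intro i hi hk z hz ha
  rcases he z hz with h1 | h1
  · rw [h1] at ha
    exact h i hi hk z hz ha
  · rw [h1] at ha
    exact absurd hk (hc i hi ha)

/-- A new label `m` with parent `c`: every vertex which gets it reaches a drawn vertex of the piece of `lroot' m`. -/
theorem rch_label (h : Rch G U0 S own k par cell lrk lroot) {par' : ℕ → ℕ} {cell' : V → ℕ} {lrk' : ℕ → ℕ}
    {lroot' : ℕ → V} {m c : ℕ} (h0 : par 0 = 0) (hlt : ∀ i, 1 ≤ i → par i < i) (hcell : ∀ z, cell z < m)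
    (hcm : c < m) (hp : ∀ i, i < m → par' i = par i) (hpm : par' m = c) (hr : ∀ i, i < m → lrk' i = lrk i)
    (hro : ∀ i, i < m → lroot' i = lroot i) (hc : ∀ i, 1 ≤ i → Anc par i c → lrk i ≠ k)
    (he : ∀ z, z ∉ S → cell' z = cell z ∨
      (cell' z = m ∧ ∃ u ∈ S, u ∉ U0 ∧ own u = lroot' m ∧ Walk G U0 z u)) :
    Rch G U0 S own k par' cell' lrk' lroot' := by
  intro i hi hk z hz ha
  rcases he z hz with h1 | ⟨h1, h2⟩
  · rw [h1, anc_upd h0 hlt hp (hcell z)] at ha
    have him : i < m := lt_of_le_of_lt (anc_le h0 hlt ha) (hcell z)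
    rw [hr i him] at hk
    rw [hro i him]
    exact h i hi hk z hz ha
  · rw [h1, anc_new h0 hlt hp hcm hpm] at ha
    rcases ha with rfl | ha
    · exact h2
    · have him : i < m := lt_of_le_of_lt (anc_le h0 hlt ha) hcm
      rw [hr i him] at hk
      exact absurd hk (hc i hi ha)

/-- A route to a drawn vertex of the phase is a walk which avoids `U0`. -/
theorem walk_of_rp {σ : St V} {D1 BS : Set V} (hb : G.bot ∈ U0) (ht : G.top ∈ U0) (hD : ∀ u ∈ D1, u ∉ U0)
    (hB : ∀ u ∈ BS, u ∉ U0) {q : V} (h : Pool.Agent.W_a4f561_P97.RP G σ D1 BS q) : ∃ u ∈ BS, Walk G U0 q u := by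
  obtain ⟨π, hπ, v, hv, h1, h2⟩ := h
  refine ⟨v, hv, walk_of_orb hπ.1 (hB v hv) hb ht h1 fun w hw hwt => ?_⟩
  rcases hwt.lt_or_eq with h3 | h3
  · exact hD w (h2 w hw h3)
  · rw [G.t_inj h3]
    exact hB v hv

end Pool.Agent.W_a4f561_P45
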