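import Pool.Agent.W_a4f561_h1.Def

/-!
MP_a4f561_co, polylog pages (helper45): step (7a), the rank of the present cell.
-/

set_option autoImplicit false

namespace Pool.Agent.W_a4f561_P45

open Pool.Agent.W_a4f561_h26 Pool.Agent.W_a4f561_P73 Pool.Agent.W_a4f561_P8 Pool.Agent.W_a4f561_h1

variable {V : Type} {G : Bars V} {rnk : V → ℕ}

/-- The set `Low` is closed. -/
theorem low_cl {π : V → V} (h : Ch G π) {k : ℕ} : ∀ w ∈ Low G rnk π k, π w ∈ Low G rnk π k := by
  intro w hw
  rcases hw with rfl | rfl | ⟨u, hu, ho⟩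
  · exact Or.inl h.1
  · exact Or.inr (Or.inl h.2.1)
  · exact Or.inr (Or.inr ⟨u, hu, orb_step ho⟩)

theorem low_bot {π : V → V} {k : ℕ} : G.bot ∈ Low G rnk π k := Or.inl rfl

theorem low_top {π : V → V} {k : ℕ} : G.top ∈ Low G rnk π k := Or.inr (Or.inl rfl)

theorem low_rk {π : V → V} {k : ℕ} {u : V} (hu : rnk u < k) : u ∈ Low G rnk π k :=
  Or.inr (Or.inr ⟨u, hu, orb_refl _ _⟩)

/-- A closed set contains the route of each of its elements. -/
theorem cl_orb {π : V → V} {U : Set V} (h : ∀ w ∈ U, π w ∈ U) {u v : V} (hu : u ∈ U) (ho : Orb π u v) : v ∈ U := by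
  obtain ⟨k, rfl⟩ := ho
  induction k with
  | zero => exact hu
  | succ k ih => rw [Function.iterate_succ_apply']; exact h _ ih

theorem low_orb {π : V → V} (h : Ch G π) {k : ℕ} {u v : V} (hu : u ∈ Low G rnk π k) (ho : Orb π u v) :
    v ∈ Low G rnk π k := cl_orb (low_cl h) hu ho

/-- `Low` is in every closed set with `bot`, `top` and all vertices of smaller rank. -/
theorem low_sub {π : V → V} {U : Set V} (h : ∀ w ∈ U, π w ∈ U) (hb : G.bot ∈ U) (ht : G.top ∈ U) {k : ℕ}
    (hl : ∀ u, rnk u < k → u ∈ U) : Low G rnk π k ⊆ U := by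
  intro w hw
  rcases hw with rfl | rfl | ⟨u, hu, ho⟩
  · exact hb
  · exact ht
  · exact cl_orb h (hl u hu) ho

theorem low_mono {π : V → V} {k l : ℕ} (h : k ≤ l) : Low G rnk π k ⊆ Low G rnk π l := by
  intro w hw
  rcases hw with rfl | rfl | ⟨u, hu, ho⟩
  · exact low_bot
  · exact low_top
  · exact Or.inr (Or.inr ⟨u, hu.trans_le h, ho⟩)

/-- A route which ends outside of `Low` is a walk which avoids `Low`. -/
theorem walk_low {π : V → V} (h : Ch G π) {k : ℕ} {a b : V} (hb : b ∉ Low G rnk π k) (hab : Orb π a b) :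
    Walk G (Low G rnk π k) a b := by
  refine walk_of_orb h hb low_bot low_top hab fun w hw ht hwl => hb ?_
  exact low_orb h hwl (orb_comp h hw hab ht)

variable [Fintype V] [DecidableEq V] {N : ℕ}

/-- The start of the next phase is reached from the root of the piece by a walk which avoids `Low`. -/
theorem ps_walk {X : MS V} {S0 : Set V} {r c : V} {k0 : ℕ} (hW : WI G rnk N k0 X c) (hP : PS G rnk X S0 r c)
    (hc : c ∉ X.σ.S) : Walk G (Low G rnk X.σ.pi (rnk r)) r c :=
  walk_low hW.inv.ch (fun h => hc (hP.sub (low_sub hP.cl0 hP.bot0 hP.top0 hP.low0 h))) hP.orb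

/-- **(7a)** The rank of the present cell. -/
theorem rk_cell (hr : Rks G rnk) {X : MS V} {S0 : Set V} {r c : V} (hW : WI G rnk N 0 X c) (hP : PS G rnk X S0 r c)
    (hc : c ∉ X.σ.S) : X.rk (X.cell c) ≤ rnk r := by
  rcases Nat.eq_zero_or_pos (X.cell c) with h0 | h0
  · rw [h0, hW.rk0]
    exact Nat.zero_le _
  · have hlt := hW.cell_lt c
    obtain ⟨p1, p2⟩ := hW.ph_rng _ h0 hlt
    rw [hW.lab_rk _ h0 hlt]
    refine Nat.lt_of_le_of_ne (hP.rts _ p1 p2) fun he => ?_
    have hcC : c ∈ X.C (X.cell c) := anc_refl _ _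
    by_cases hne : X.rt (X.ph (X.cell c)) = r
    · have h1 := hP.le _ h0 hlt hne
      have h2 := (hW.I3 _ h0 c hcC).2
      omega
    · obtain ⟨w, hwS, hwi, hwr, hww⟩ := hW.wlk c hc _ h0 hcC
      have hlw := hW.low w hwS hwi
      obtain ⟨ho, _⟩ := hW.root w hwS hwi
      rw [hwr] at hlw ho
      have hch := hW.inv.ch
      have w1 : Walk G (Low G rnk X.σ.pi (rnk r)) (X.rt (X.ph (X.cell c))) w := by
        rw [← he]
        exact walk_low hch hlw ho
      have w2 : Walk G (Low G rnk X.σ.pi (rnk r)) r w := by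
        refine (ps_walk hW hP hc).trans ?_
        rw [← he]
        exact hww
      have hnl : X.rt (X.ph (X.cell c)) ∉ Low G rnk X.σ.pi (rnk r) := by
        intro h1
        rw [← he] at h1
        exact hlw (low_orb hch h1 ho)
      have hnr : r ∉ Low G rnk X.σ.pi (rnk r) := fun h1 =>
        hP.rS (low_sub hP.cl0 hP.bot0 hP.top0 hP.low0 h1)
      exact sep_walk hr hch (low_cl hch) low_bot low_top (v := r) (v' := X.rt (X.ph (X.cell c)))
        (fun h1 => hne h1.symm) he.symm (fun u hu => low_rk hu) hnr hnl w2 w1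

end Pool.Agent.W_a4f561_P45
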